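import Mathlib

open Finset

namespace Pool.Agent.Results.MP_68df70_lc.AverageComplexity

/-- `IsReducedFraction N b f g` says that the N-adic integer `α = ∑ b_i N^i` of the infinite N-ary
sequence `b` is the rational number `f / g` in lowest terms: `g > 0`, `gcd(f,g) = 1` and `g α = f`
in `ℤ_N`, i.e. `g * ∑_{i<k} b_i N^i ≡ f (mod N^k)` for every `k`. -/
def IsReducedFraction (N : ℕ) (b : ℕ → Fin N) (f g : ℤ) : Prop :=
  0 < g ∧ Int.gcd f g = 1 ∧
    ∀ k : ℕ, (N : ℤ) ^ k ∣ g * (∑ i ∈ range k, ((b i : ℕ) : ℤ) * (N : ℤ) ^ i) - f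

open Classical in
/-- The N-adic complexity of an infinite N-ary sequence: `log_N max(|f|,|g|)` if its N-adic number
is the reduced fraction `f / g` (which is unique, see `IsReducedFraction.unique`), and `∞` if its
N-adic number is irrational. -/
noncomputable def complexity (N : ℕ) (b : ℕ → Fin N) : EReal :=
  if h : ∃ p : ℤ × ℤ, IsReducedFraction N b p.1 p.2 then
    ((Real.logb (N : ℝ) (max |(h.choose.1 : ℝ)| |(h.choose.2 : ℝ)|) : ℝ) : EReal)
  else ⊤

/-- The N-adic complexity of a finite N-ary sequence `a_0, …, a_{n-1}`: the minimum of the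
(finite) N-adic complexities of the infinite N-ary sequences that extend it. -/
noncomputable def finComplexity (N n : ℕ) (a : Fin n → Fin N) : ℝ :=
  sInf {x : ℝ | ∃ b : ℕ → Fin N, (∀ i : Fin n, b i = a i) ∧ complexity N b = (x : EReal)}

/-- `E_n^fin`: the average of the N-adic complexity over all `N^n` N-ary sequences of length `n`. -/
noncomputable def avgFin (N n : ℕ) : ℝ :=
  (∑ a : Fin n → Fin N, finComplexity N n a) / (N : ℝ) ^ n

/-! ### Uniqueness -/

lemma IsReducedFraction.unique {N : ℕ} (hN : 2 ≤ N) {b : ℕ → Fin N} {f g f' g' : ℤ}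
    (h : IsReducedFraction N b f g) (h' : IsReducedFraction N b f' g') : f = f' ∧ g = g' := by
  obtain ⟨hg, hc, hk⟩ := h
  obtain ⟨hg', hc', hk'⟩ := h'
  have key : g' * f = g * f' := by
    have hdvd : ∀ k : ℕ, (N : ℤ) ^ k ∣ g' * f - g * f' := by
      intro k
      have h1 := (hk k).mul_left g'
      have h2 := (hk' k).mul_left g
      have := dvd_sub h2 h1
      refine this.trans (dvd_of_eq ?_)
      ring
    by_contra hne
    have hne' : g' * f - g * f' ≠ 0 := sub_ne_zero.mpr hne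
    obtain ⟨k, hk⟩ : ∃ k : ℕ, |g' * f - g * f'| < (N : ℤ) ^ k := by
      obtain ⟨k, hk⟩ := pow_unbounded_of_one_lt (|g' * f - g * f'|) (show (1:ℤ) < (N:ℤ) by exact_mod_cast hN)
      exact ⟨k, hk⟩
    have := Int.eq_zero_of_abs_lt_dvd (hdvd k) hk
    exact hne' this
  have hgg : g = g' := by
    apply Int.dvd_antisymm hg.le hg'.le
    · have : g ∣ f * g' := ⟨f', by linarith [key]⟩
      exact (Int.isCoprime_iff_gcd_eq_one.mpr hc).symm.dvd_of_dvd_mul_left this
    · have : g' ∣ f' * g := ⟨f, by linarith [key]⟩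
      exact (Int.isCoprime_iff_gcd_eq_one.mpr hc').symm.dvd_of_dvd_mul_left this
  refine ⟨?_, hgg⟩
  subst hgg
  exact mul_left_cancel₀ hg.ne' key

lemma complexity_eq {N : ℕ} (hN : 2 ≤ N) {b : ℕ → Fin N} {f g : ℤ}
    (h : IsReducedFraction N b f g) :
    complexity N b = ((Real.logb (N : ℝ) (max |(f : ℝ)| |(g : ℝ)|) : ℝ) : EReal) := by
  have hex : ∃ p : ℤ × ℤ, IsReducedFraction N b p.1 p.2 := ⟨(f, g), h⟩
  unfold complexity
  rw [dif_pos hex]
  have := IsReducedFraction.unique hN hex.choose_spec h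
  rw [this.1, this.2]

lemma exists_of_complexity {N : ℕ} {b : ℕ → Fin N} {x : ℝ} (hx : complexity N b = (x : EReal)) :
    ∃ f g : ℤ, IsReducedFraction N b f g ∧ x = Real.logb (N : ℝ) (max |(f : ℝ)| |(g : ℝ)|) := by
  unfold complexity at hx
  split_ifs at hx with h
  · refine ⟨h.choose.1, h.choose.2, h.choose_spec, ?_⟩
    exact_mod_cast hx.symm
  · exact absurd hx (by simp)

/-! ### Expansion of a fraction -/

/-- The digit of the N-adic expansion. -/
def dig (N : ℕ) (u : ℤ) (r : ℤ) : ℕ := ((u * r) % (N : ℤ)).toNat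

/-- remainders -/
def rem (N : ℕ) (u f g : ℤ) : ℕ → ℤ
  | 0 => f
  | k + 1 => (rem N u f g k - g * (dig N u (rem N u f g k) : ℤ)) / (N : ℤ)

lemma dig_lt {N : ℕ} (hN : 2 ≤ N) (u r : ℤ) : dig N u r < N := by
  unfold dig
  have h0 : (0 : ℤ) < N := by exact_mod_cast (by omega : 0 < N)
  have h1 := Int.emod_nonneg (u * r) h0.ne'
  have h2 := Int.emod_lt_of_pos (u * r) h0
  omega

lemma dig_spec {N : ℕ} (hN : 2 ≤ N) {u g : ℤ} (hu : (N : ℤ) ∣ g * u - 1) (r : ℤ) :
    (N : ℤ) ∣ r - g * (dig N u r : ℤ) := by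
  unfold dig
  have h0 : (0 : ℤ) < N := by exact_mod_cast (by omega : 0 < N)
  have h1 := Int.emod_nonneg (u * r) h0.ne'
  rw [Int.toNat_of_nonneg h1]
  have h2 : (N : ℤ) ∣ u * r - (u * r) % N := Int.dvd_self_sub_emod
  have h3 : r - g * (u * r % (N : ℤ)) = g * (u * r - (u * r) % N) - (g * u - 1) * r := by ring
  rw [h3]
  exact dvd_sub (h2.mul_left g) (hu.mul_right r)

lemma rem_spec {N : ℕ} (hN : 2 ≤ N) {u f g : ℤ} (hu : (N : ℤ) ∣ g * u - 1) (k : ℕ) :
    g * (∑ i ∈ range k, (dig N u (rem N u f g i) : ℤ) * (N : ℤ) ^ i) + (N : ℤ) ^ k * rem N u f g k = f := by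
  induction k with
  | zero => simp [rem]
  | succ k ih =>
    rw [Finset.sum_range_succ]
    have h1 : (N : ℤ) * rem N u f g (k + 1) = rem N u f g k - g * (dig N u (rem N u f g k) : ℤ) := by
      show (N : ℤ) * ((rem N u f g k - g * (dig N u (rem N u f g k) : ℤ)) / (N : ℤ)) = _
      exact Int.mul_ediv_cancel' (dig_spec hN hu _)
    calc g * (∑ i ∈ range k, (dig N u (rem N u f g i) : ℤ) * (N : ℤ) ^ i +
            (dig N u (rem N u f g k) : ℤ) * (N : ℤ) ^ k) + (N : ℤ) ^ (k + 1) * rem N u f g (k + 1)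
        = g * (∑ i ∈ range k, (dig N u (rem N u f g i) : ℤ) * (N : ℤ) ^ i) +
          (N : ℤ) ^ k * (g * (dig N u (rem N u f g k) : ℤ) + (N : ℤ) * rem N u f g (k + 1)) := by ring
      _ = g * (∑ i ∈ range k, (dig N u (rem N u f g i) : ℤ) * (N : ℤ) ^ i) +
          (N : ℤ) ^ k * rem N u f g k := by rw [h1]; ring
      _ = f := ih

/-- The integer attached to a finite sequence. -/
def val (N n : ℕ) (a : Fin n → Fin N) : ℕ := ∑ i : Fin n, (a i : ℕ) * N ^ (i : ℕ)

lemma val_eq (N n : ℕ) (a : Fin n → Fin N) : val N n a = (finFunctionFinEquiv a : ℕ) := by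
  simp [val]

lemma val_lt (N n : ℕ) (a : Fin n → Fin N) : val N n a < N ^ n := by
  rw [val_eq]; exact (finFunctionFinEquiv a).2

lemma val_inj (N n : ℕ) {a b : Fin n → Fin N} (h : val N n a = val N n b) : a = b := by
  rw [val_eq, val_eq] at h
  exact finFunctionFinEquiv.injective (Fin.ext h)

lemma sum_range_eq_val (N n : ℕ) (b : ℕ → Fin N) :
    (∑ i ∈ range n, ((b i : ℕ) : ℤ) * (N : ℤ) ^ i) = (val N n (fun i => b i) : ℤ) := by
  unfold val
  push_cast
  rw [Finset.sum_range (fun i => ((b i : ℕ) : ℤ) * (N : ℤ) ^ i)]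

/-- Valid pairs for the finite sequence with number `α` modulo `D = N^n`. -/
def Valid (N n : ℕ) (α f g : ℤ) : Prop :=
  0 < g ∧ Int.gcd f g = 1 ∧ Int.gcd g N = 1 ∧ (N : ℤ) ^ n ∣ g * α - f

lemma gcd_of_isReducedFraction {N : ℕ} {b : ℕ → Fin N} {f g : ℤ}
    (h : IsReducedFraction N b f g) : Int.gcd g N = 1 := by
  obtain ⟨hg, hc, hk⟩ := h
  have h1 := hk 1
  simp only [pow_one] at h1
  have hd1 : ((Int.gcd g N : ℕ) : ℤ) ∣ g := Int.gcd_dvd_left ..
  have hd2 : ((Int.gcd g N : ℕ) : ℤ) ∣ N := Int.gcd_dvd_right ..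
  have hf : ((Int.gcd g N : ℕ) : ℤ) ∣ f := by
    have h2 := hd2.trans h1
    have h3 := hd1.mul_right (∑ i ∈ range 1, ((b i : ℕ) : ℤ) * (N : ℤ) ^ i)
    have := dvd_sub h3 h2
    simpa using this
  have h4 : ((Int.gcd g N : ℕ) : ℤ) ∣ (Int.gcd f g : ℤ) := Int.dvd_coe_gcd hf hd1
  rw [hc] at h4
  have : Int.gcd g N ∣ 1 := by exact_mod_cast h4
  exact Nat.dvd_one.mp this

lemma valid_of_isReducedFraction {N n : ℕ} {a : Fin n → Fin N} {b : ℕ → Fin N}
    (hb : ∀ i : Fin n, b i = a i) {f g : ℤ}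
    (h : IsReducedFraction N b f g) : Valid N n (val N n a) f g := by
  refine ⟨h.1, h.2.1, gcd_of_isReducedFraction h, ?_⟩
  have := h.2.2 n
  rw [sum_range_eq_val] at this
  have hba : (fun i : Fin n => b i) = a := funext hb
  rwa [hba] at this

lemma exists_of_valid {N n : ℕ} (hN : 2 ≤ N) {a : Fin n → Fin N} {f g : ℤ}
    (h : Valid N n (val N n a) f g) :
    ∃ b : ℕ → Fin N, (∀ i : Fin n, b i = a i) ∧ IsReducedFraction N b f g := by
  obtain ⟨hg, hc, hgN, hdvd⟩ := h
  obtain ⟨u, hu⟩ : ∃ u : ℤ, (N : ℤ) ∣ g * u - 1 := by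
    obtain ⟨x, y, hxy⟩ := Int.isCoprime_iff_gcd_eq_one.mpr hgN
    exact ⟨x, ⟨-y, by linarith [hxy]⟩⟩
  set b : ℕ → Fin N := fun i => ⟨dig N u (rem N u f g i), dig_lt hN u _⟩ with hbdef
  have hred : IsReducedFraction N b f g := by
    refine ⟨hg, hc, fun k => ?_⟩
    have := rem_spec hN hu (f := f) k
    refine ⟨- rem N u f g k, ?_⟩
    have h2 : (∑ i ∈ range k, ((b i : ℕ) : ℤ) * (N : ℤ) ^ i) =
      (∑ i ∈ range k, (dig N u (rem N u f g i) : ℤ) * (N : ℤ) ^ i) := rfl
    rw [h2]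
    linarith [this]
  refine ⟨b, ?_, hred⟩
  have h1 := hred.2.2 n
  rw [sum_range_eq_val] at h1
  have h2 : (N : ℤ) ^ n ∣ g * ((val N n a : ℤ) - (val N n (fun i => b i) : ℤ)) := by
    have := dvd_sub hdvd h1
    refine this.trans (dvd_of_eq ?_)
    ring
  have hcop : IsCoprime ((N : ℤ) ^ n) g := (Int.isCoprime_iff_gcd_eq_one.mpr hgN).symm.pow_left
  have h3 := hcop.dvd_of_dvd_mul_left h2
  have hlt1 := val_lt N n a
  have hlt2 := val_lt N n (fun i => b i)
  have h4 : (val N n a : ℤ) - (val N n (fun i => b i) : ℤ) = 0 := by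
    apply Int.eq_zero_of_abs_lt_dvd h3
    rw [abs_lt]
    have e1 : (val N n a : ℤ) < (N : ℤ) ^ n := by exact_mod_cast hlt1
    have e2 : (val N n (fun i => b i) : ℤ) < (N : ℤ) ^ n := by exact_mod_cast hlt2
    have e3 : (0 : ℤ) ≤ (val N n a : ℤ) := by positivity
    have e4 : (0 : ℤ) ≤ (val N n (fun i => b i) : ℤ) := by positivity
    constructor <;> linarith
  have h5 : val N n a = val N n (fun i => b i) := by
    have : (val N n a : ℤ) = (val N n (fun i => b i) : ℤ) := by linarith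
    exact_mod_cast this
  have h6 := val_inj N n h5
  intro i
  rw [h6]

/-- The complexity is attained at a valid pair and is the least value over valid pairs. -/
lemma finComplexity_spec {N n : ℕ} (hN : 2 ≤ N) (a : Fin n → Fin N) :
    ∃ m : ℕ, 1 ≤ m ∧ finComplexity N n a = Real.logb N m ∧
      (∃ f g : ℤ, Valid N n (val N n a) f g ∧ max |f| |g| = m) ∧
      (∀ f g : ℤ, Valid N n (val N n a) f g → (m : ℤ) ≤ max |f| |g|) := by
  classical
  set T : Set ℕ := {m : ℕ | ∃ f g : ℤ, Valid N n (val N n a) f g ∧ max |f| |g| = m} with hT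
  have hne : T.Nonempty := by
    refine ⟨(max |(val N n a : ℤ)| |(1:ℤ)|).toNat, (val N n a : ℤ), 1, ⟨one_pos, by simp, by simp, by simp⟩, ?_⟩
    rw [Int.toNat_of_nonneg]
    exact le_max_of_le_left (abs_nonneg _)
  set m := sInf T with hm
  have hmT : m ∈ T := Nat.sInf_mem hne
  have hmle : ∀ f g : ℤ, Valid N n (val N n a) f g → (m : ℤ) ≤ max |f| |g| := by
    intro f g hfg
    have h0 : 0 ≤ max |f| |g| := le_max_of_le_left (abs_nonneg _)
    have : (max |f| |g|).toNat ∈ T := ⟨f, g, hfg, by rw [Int.toNat_of_nonneg h0]⟩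
    have := Nat.sInf_le this
    omega
  have hm1 : 1 ≤ m := by
    obtain ⟨f, g, hv, hfg⟩ := hmT
    have h1 : (1:ℤ) ≤ |g| := Int.one_le_abs hv.1.ne'
    have h2 : |g| ≤ max |f| |g| := le_max_right _ _
    have : (1:ℤ) ≤ m := by rw [← hfg]; linarith
    exact_mod_cast this
  refine ⟨m, hm1, ?_, hmT, hmle⟩
  apply IsLeast.csInf_eq
  constructor
  · obtain ⟨f, g, hv, hfg⟩ := hmT
    obtain ⟨b, hb, hred⟩ := exists_of_valid hN hv
    refine ⟨b, hb, ?_⟩
    rw [complexity_eq hN hred]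
    congr 2
    have : ((max |f| |g| : ℤ) : ℝ) = (m : ℝ) := by rw [hfg]; simp
    rw [← this]
    push_cast
    rfl
  · rintro x ⟨b, hb, hx⟩
    obtain ⟨f, g, hred, rfl⟩ := exists_of_complexity hx
    have hv := valid_of_isReducedFraction hb hred
    have h1 := hmle f g hv
    have h2 : (m : ℝ) ≤ max |(f : ℝ)| |(g : ℝ)| := by
      have : ((m : ℤ) : ℝ) ≤ ((max |f| |g| : ℤ) : ℝ) := by exact_mod_cast h1
      push_cast at this
      simpa using this
    have hN1 : (1 : ℝ) < N := by exact_mod_cast (by omega : 1 < N)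
    apply Real.logb_le_logb_of_le hN1 _ h2
    exact_mod_cast hm1

/-- A telescoping bound for reciprocals. -/
lemma inv_le_sum (X K : ℕ) (hX : 1 ≤ X) :
    (1 : ℝ) / X ≤ 1 / (K + 1) + ∑ M ∈ Icc 1 K, (if X ≤ M then (1 : ℝ) / (M * (M + 1)) else 0) := by
  induction K with
  | zero =>
    simp
    rw [inv_le_one₀ (by exact_mod_cast hX)]
    exact_mod_cast hX
  | succ K ih =>
    rw [Finset.sum_Icc_succ_top (by omega)]
    have hK : (0 : ℝ) < (K : ℝ) + 1 := by positivity
    by_cases h : X ≤ K + 1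
    · rw [if_pos h]
      have e : (1 : ℝ) / ((K : ℝ) + 1) = 1 / (((K + 1 : ℕ) : ℝ) + 1) + 1 / (((K + 1 : ℕ) : ℝ) * (((K + 1 : ℕ) : ℝ) + 1)) := by
        push_cast
        field_simp
      linarith
    · rw [if_neg h]
      have h0 : (∑ M ∈ Icc 1 K, (if X ≤ M then (1 : ℝ) / (M * (M + 1)) else 0)) = 0 := by
        apply Finset.sum_eq_zero
        intro M hM
        rw [Finset.mem_Icc] at hM
        rw [if_neg (by omega)]
      rw [h0]
      simp only [add_zero]
      apply one_div_le_one_div_of_le (by positivity)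
      have : K + 2 ≤ X := by omega
      push_cast
      have : ((K + 2 : ℕ) : ℝ) ≤ X := by exact_mod_cast this
      push_cast at this
      linarith

lemma sum_inv_le {ι : Type*} (s : Finset ι) (X : ι → ℕ) (hX : ∀ i ∈ s, 1 ≤ X i) (D : ℝ)
    (hD : (s.card : ℝ) ≤ D)
    (hcount : ∀ M : ℕ, 1 ≤ M → ((s.filter (fun i => X i ≤ M)).card : ℝ) ≤ 3 * (M : ℝ) ^ 2) :
    ∑ i ∈ s, (1 : ℝ) / X i ≤ 4 * Real.sqrt D := by
  have hD0 : 0 ≤ D := le_trans (by positivity) hD
  set K : ℕ := ⌊Real.sqrt D⌋₊ with hK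
  have hK1 : (K : ℝ) ≤ Real.sqrt D := Nat.floor_le (Real.sqrt_nonneg D)
  have hK2 : Real.sqrt D < K + 1 := Nat.lt_floor_add_one _
  have h1 : ∑ i ∈ s, (1 : ℝ) / X i ≤ ∑ i ∈ s, ((1 : ℝ) / (K + 1) + ∑ M ∈ Icc 1 K, (if X i ≤ M then (1 : ℝ) / (M * (M + 1)) else 0)) :=
    Finset.sum_le_sum (fun i hi => inv_le_sum (X i) K (hX i hi))
  have h2 : ∑ i ∈ s, ((1 : ℝ) / (K + 1) + ∑ M ∈ Icc 1 K, (if X i ≤ M then (1 : ℝ) / (M * (M + 1)) else 0))
      = s.card / ((K : ℝ) + 1) + ∑ M ∈ Icc 1 K, ((s.filter (fun i => X i ≤ M)).card : ℝ) / (M * (M + 1)) := by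
    rw [Finset.sum_add_distrib, Finset.sum_const, nsmul_eq_mul, Finset.sum_comm]
    congr 1
    · ring
    · apply Finset.sum_congr rfl
      intro M _
      rw [← Finset.sum_filter, Finset.sum_const, nsmul_eq_mul]
      ring
  have h3 : (s.card : ℝ) / ((K : ℝ) + 1) ≤ Real.sqrt D := by
    rw [div_le_iff₀ (by positivity)]
    calc (s.card : ℝ) ≤ D := hD
      _ = Real.sqrt D * Real.sqrt D := (Real.mul_self_sqrt hD0).symm
      _ ≤ Real.sqrt D * (K + 1) := by
        apply mul_le_mul_of_nonneg_left hK2.le (Real.sqrt_nonneg D)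
  have h4 : ∑ M ∈ Icc 1 K, ((s.filter (fun i => X i ≤ M)).card : ℝ) / (M * (M + 1)) ≤ 3 * K := by
    calc ∑ M ∈ Icc 1 K, ((s.filter (fun i => X i ≤ M)).card : ℝ) / (M * (M + 1))
        ≤ ∑ M ∈ Icc 1 K, (3 : ℝ) := by
          apply Finset.sum_le_sum
          intro M hM
          rw [Finset.mem_Icc] at hM
          have hM0 : (0 : ℝ) < M := by exact_mod_cast hM.1
          rw [div_le_iff₀ (by positivity)]
          refine (hcount M hM.1).trans ?_
          nlinarith
      _ = 3 * K := by simp; ring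
  linarith

/-- counting integers in a real interval -/
lemma card_Icc_ceil_floor (x y : ℝ) (hxy : x ≤ y) :
    ((Finset.Icc ⌈x⌉ ⌊y⌋).card : ℝ) ≤ y - x + 1 := by
  rw [Int.card_Icc]
  have h1 : (⌊y⌋ : ℝ) ≤ y := Int.floor_le y
  have h2 : x ≤ (⌈x⌉ : ℝ) := Int.le_ceil x
  rcases le_or_gt 0 (⌊y⌋ + 1 - ⌈x⌉) with h | h
  · have : ((⌊y⌋ + 1 - ⌈x⌉).toNat : ℝ) = ((⌊y⌋ + 1 - ⌈x⌉ : ℤ) : ℝ) := by
      have := Int.toNat_of_nonneg h
      exact_mod_cast congrArg (fun z : ℤ => (z : ℝ)) this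
    rw [this]
    push_cast
    linarith
  · rw [Int.toNat_of_nonpos h.le]
    push_cast
    linarith

open Classical in
/-- For each `g ≥ 1`, at most `2M + g` residues `α` mod `D` have `gα` within `M` of a multiple of `D`. -/
lemma card_mult (D M g : ℕ) (hD : 1 ≤ D) (hg : 1 ≤ g) :
    (((range D).filter (fun α : ℕ => ∃ j : ℤ, |(g : ℤ) * α - j * D| ≤ M)).card : ℝ) ≤ 2 * M + g := by
  classical
  have hg0 : (0 : ℝ) < g := by exact_mod_cast hg
  have hD0 : (0 : ℤ) < D := by exact_mod_cast hD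
  have hgz : (0 : ℤ) < g := by exact_mod_cast hg
  -- the target
  set B : Finset ℕ := (range g).biUnion (fun j => (Finset.Icc ⌈((j : ℝ) * D - M) / g⌉ ⌊((j : ℝ) * D + M) / g⌋).image
    (fun z : ℤ => (z % (D : ℤ)).toNat)) with hB
  have hsub : (range D).filter (fun α : ℕ => ∃ j : ℤ, |(g : ℤ) * α - j * D| ≤ M) ⊆ B := by
    intro α hα
    rw [Finset.mem_filter, Finset.mem_range] at hα
    obtain ⟨hαD, j, hj⟩ := hα
    rw [hB, Finset.mem_biUnion]
    have hjm0 := Int.emod_nonneg j hgz.ne'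
    have hjm1 := Int.emod_lt_of_pos j hgz
    refine ⟨(j % g).toNat, ?_, ?_⟩
    · rw [Finset.mem_range]; omega
    · rw [Finset.mem_image]
      refine ⟨(α : ℤ) - D * (j / g), ?_, ?_⟩
      · have hjr : (((j % g).toNat : ℕ) : ℝ) = ((j % g : ℤ) : ℝ) := by
          have := Int.toNat_of_nonneg hjm0
          exact_mod_cast congrArg (fun z : ℤ => (z : ℝ)) this
        have hkey : (g : ℤ) * ((α : ℤ) - D * (j / g)) - (j % g) * D = (g : ℤ) * α - j * D := by
          have := Int.emod_add_mul_ediv j g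
          have h2 : j * (D : ℤ) = (j % g + g * (j / g)) * D := by rw [this]
          rw [h2]; ring
        rw [abs_le] at hj
        rw [← hkey] at hj
        have e1 : (-(M : ℝ)) ≤ (g : ℝ) * (((α : ℤ) - D * (j / g) : ℤ) : ℝ) - ((j % g : ℤ) : ℝ) * D := by
          exact_mod_cast hj.1
        have e2 : (g : ℝ) * (((α : ℤ) - D * (j / g) : ℤ) : ℝ) - ((j % g : ℤ) : ℝ) * D ≤ M := by
          exact_mod_cast hj.2
        rw [Finset.mem_Icc]
        constructor
        · rw [Int.ceil_le, hjr, div_le_iff₀ hg0]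
          linarith
        · rw [Int.le_floor, hjr, le_div_iff₀ hg0]
          linarith
      · have : ((α : ℤ) - D * (j / g)) % (D : ℤ) = α := by
          rw [Int.sub_mul_emod_self_left]
          apply Int.emod_eq_of_lt (by positivity)
          exact_mod_cast hαD
        rw [this]
        simp
  have hcard : (B.card : ℝ) ≤ ∑ j ∈ range g, (2 * (M : ℝ) / g + 1) := by
    have h1 : B.card ≤ ∑ j ∈ range g, (Finset.Icc ⌈((j : ℝ) * D - M) / g⌉ ⌊((j : ℝ) * D + M) / g⌋).card := by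
      refine (Finset.card_biUnion_le).trans ?_
      apply Finset.sum_le_sum
      intro j _
      exact Finset.card_image_le
    have h2 : ((∑ j ∈ range g, (Finset.Icc ⌈((j : ℝ) * D - M) / g⌉ ⌊((j : ℝ) * D + M) / g⌋).card : ℕ) : ℝ)
        ≤ ∑ j ∈ range g, (2 * (M : ℝ) / g + 1) := by
      push_cast
      apply Finset.sum_le_sum
      intro j _
      refine (card_Icc_ceil_floor _ _ ?_).trans (le_of_eq ?_)
      · apply div_le_div_of_nonneg_right _ hg0.le
        have : (0 : ℝ) ≤ M := by positivity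
        linarith
      · ring
    exact (by exact_mod_cast h1 : (B.card : ℝ) ≤ _).trans h2
  have hfin : ∑ j ∈ range g, (2 * (M : ℝ) / g + 1) = 2 * M + g := by
    rw [Finset.sum_const, Finset.card_range, nsmul_eq_mul]
    field_simp
  calc (((range D).filter (fun α : ℕ => ∃ j : ℤ, |(g : ℤ) * α - j * D| ≤ M)).card : ℝ)
      ≤ B.card := by exact_mod_cast Finset.card_le_card hsub
    _ ≤ _ := hcard
    _ = _ := hfin

/-- The size of the shortest nonzero vector of the lattice `{(f,g) : D ∣ gα - f}`. -/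
noncomputable def shortest (D : ℕ) (α : ℤ) : ℕ :=
  sInf {m : ℕ | ∃ f g : ℤ, (f ≠ 0 ∨ g ≠ 0) ∧ (D : ℤ) ∣ g * α - f ∧ max |f| |g| = m}

lemma shortest_spec (D : ℕ) (hD : 1 ≤ D) (α : ℤ) :
    (∃ f g : ℤ, (f ≠ 0 ∨ g ≠ 0) ∧ (D : ℤ) ∣ g * α - f ∧ max |f| |g| = shortest D α) ∧
    (∀ f g : ℤ, (f ≠ 0 ∨ g ≠ 0) → (D : ℤ) ∣ g * α - f → (shortest D α : ℤ) ≤ max |f| |g|) ∧
    1 ≤ shortest D α := by
  set T := {m : ℕ | ∃ f g : ℤ, (f ≠ 0 ∨ g ≠ 0) ∧ (D : ℤ) ∣ g * α - f ∧ max |f| |g| = m} with hT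
  have hne : T.Nonempty := by
    refine ⟨D, (D : ℤ), 0, Or.inl (by exact_mod_cast (by omega : D ≠ 0)), by simp, by simp⟩
  have hmem : shortest D α ∈ T := Nat.sInf_mem hne
  refine ⟨hmem, ?_, ?_⟩
  · intro f g hfg hd
    have h0 : 0 ≤ max |f| |g| := le_max_of_le_left (abs_nonneg _)
    have : (max |f| |g|).toNat ∈ T := ⟨f, g, hfg, hd, by rw [Int.toNat_of_nonneg h0]⟩
    have h2 : shortest D α ≤ (max |f| |g|).toNat := Nat.sInf_le this
    omega
  · obtain ⟨f, g, hfg, _, hm⟩ := hmem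
    have : (1 : ℤ) ≤ max |f| |g| := by
      rcases hfg with h | h
      · exact le_max_of_le_left (Int.one_le_abs h)
      · exact le_max_of_le_right (Int.one_le_abs h)
    omega

lemma shortest_sq_le (D : ℕ) (hD : 1 ≤ D) (α : ℤ) : (shortest D α) ^ 2 ≤ D := by
  have hD0 : (0 : ℝ) < D := by exact_mod_cast hD
  have hK : 0 < Nat.sqrt D := Nat.sqrt_pos.mpr hD
  obtain ⟨j, k, hk0, hkn, hle⟩ := Real.exists_int_int_abs_mul_sub_le ((α : ℝ) / D) hK
  have hsq : D < (Nat.sqrt D + 1) ^ 2 := Nat.lt_succ_sqrt' D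
  have hsq' : (Nat.sqrt D) ^ 2 ≤ D := Nat.sqrt_le' D
  -- |kα - jD| ≤ D/(K+1) < K+1
  have h1 : |(k : ℝ) * α - j * D| ≤ D / ((Nat.sqrt D : ℝ) + 1) := by
    have e : (k : ℝ) * α - j * D = D * (k * ((α : ℝ) / D) - j) := by field_simp
    rw [e, abs_mul, abs_of_pos hD0]
    calc (D : ℝ) * |k * ((α : ℝ) / D) - j| ≤ D * (1 / ((Nat.sqrt D : ℝ) + 1)) := by
          apply mul_le_mul_of_nonneg_left _ hD0.le
          exact_mod_cast hle
      _ = _ := by ring
  have h2 : (D : ℝ) / ((Nat.sqrt D : ℝ) + 1) < (Nat.sqrt D : ℝ) + 1 := by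
    rw [div_lt_iff₀ (by positivity)]
    have : (D : ℝ) < ((Nat.sqrt D : ℝ) + 1) ^ 2 := by exact_mod_cast hsq
    nlinarith
  have h3 : |k * α - j * D| < (Nat.sqrt D : ℤ) + 1 := by
    have : ((|k * α - j * D| : ℤ) : ℝ) < (((Nat.sqrt D : ℤ) + 1 : ℤ) : ℝ) := by
      push_cast
      exact lt_of_le_of_lt h1 h2
    exact_mod_cast this
  have h4 : |k * α - j * D| ≤ (Nat.sqrt D : ℤ) := by omega
  have h5 := (shortest_spec D hD α).2.1 (k * α - j * D) k (Or.inr hk0.ne') ⟨j, by ring⟩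
  have h6 : max |k * α - j * D| |k| ≤ (Nat.sqrt D : ℤ) := by
    apply max_le h4
    rw [abs_of_pos hk0]; exact hkn
  have h7 : (shortest D α) ≤ Nat.sqrt D := by
    have := h5.trans h6
    exact_mod_cast this
  calc (shortest D α) ^ 2 ≤ (Nat.sqrt D) ^ 2 := Nat.pow_le_pow_left h7 2
    _ ≤ D := hsq'

lemma card_shortest_le (D : ℕ) (hD : 1 ≤ D) (M : ℕ) (hM : 1 ≤ M) :
    (((range D).filter (fun α : ℕ => shortest D α ≤ M)).card : ℝ) ≤ 3 * (M : ℝ) ^ 2 := by
  classical
  rcases lt_or_ge M D with hMD | hMD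
  · have hsub : (range D).filter (fun α : ℕ => shortest D α ≤ M) ⊆
        (Finset.Icc 1 M).biUnion (fun g => (range D).filter (fun α : ℕ => ∃ j : ℤ, |(g : ℤ) * α - j * D| ≤ M)) := by
      intro α hα
      rw [Finset.mem_filter] at hα
      obtain ⟨hαD, hs⟩ := hα
      obtain ⟨f, g, hfg, hd, hmax⟩ := (shortest_spec D hD α).1
      have hmax' : max |f| |g| ≤ M := by rw [hmax]; exact_mod_cast hs
      have hf : |f| ≤ M := (le_max_left _ _).trans hmax'
      have hg : |g| ≤ M := (le_max_right _ _).trans hmax'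
      have hg0 : g ≠ 0 := by
        rintro rfl
        have hf0 : f ≠ 0 := by
          rcases hfg with h | h
          · exact h
          · exact absurd rfl h
        have : (D : ℤ) ∣ f := by
          have := hd
          simp only [zero_mul, zero_sub, dvd_neg] at this
          exact this
        have := Int.eq_zero_of_abs_lt_dvd this (by
          have : (M : ℤ) < D := by exact_mod_cast hMD
          linarith)
        exact hf0 this
      rw [Finset.mem_biUnion]
      refine ⟨g.natAbs, ?_, ?_⟩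
      · rw [Finset.mem_Icc]
        constructor
        · exact Nat.one_le_iff_ne_zero.mpr (Int.natAbs_ne_zero.mpr hg0)
        · have : (g.natAbs : ℤ) ≤ M := by rw [Int.natCast_natAbs]; exact hg
          exact_mod_cast this
      · rw [Finset.mem_filter]
        refine ⟨hαD, ?_⟩
        obtain ⟨j, hj⟩ := hd
        rcases le_total 0 g with h | h
        · refine ⟨j, ?_⟩
          rw [Int.natCast_natAbs, abs_of_nonneg h]
          have : g * (α : ℤ) - j * D = f := by linarith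
          rw [this]; exact hf
        · refine ⟨-j, ?_⟩
          rw [Int.natCast_natAbs, abs_of_nonpos h]
          have : -g * (α : ℤ) - -j * D = -f := by linarith
          rw [this, abs_neg]; exact hf
    calc (((range D).filter (fun α : ℕ => shortest D α ≤ M)).card : ℝ)
        ≤ (((Finset.Icc 1 M).biUnion (fun g => (range D).filter (fun α : ℕ => ∃ j : ℤ, |(g : ℤ) * α - j * D| ≤ M))).card : ℝ) := by
          exact_mod_cast Finset.card_le_card hsub
      _ ≤ ∑ g ∈ Finset.Icc 1 M, (((range D).filter (fun α : ℕ => ∃ j : ℤ, |(g : ℤ) * α - j * D| ≤ M)).card : ℝ) := by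
          exact_mod_cast Finset.card_biUnion_le
      _ ≤ ∑ g ∈ Finset.Icc 1 M, (3 * (M : ℝ)) := by
          apply Finset.sum_le_sum
          intro g hg
          rw [Finset.mem_Icc] at hg
          have h1 := card_mult D M g hD hg.1
          have h2 : (g : ℝ) ≤ M := by exact_mod_cast hg.2
          linarith
      _ = 3 * (M : ℝ) ^ 2 := by
          rw [Finset.sum_const, Nat.card_Icc, nsmul_eq_mul]
          simp only [Nat.add_sub_cancel]
          ring
  · have h1 : (((range D).filter (fun α : ℕ => shortest D α ≤ M)).card : ℝ) ≤ D := by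
      have := Finset.card_filter_le (range D) (fun α : ℕ => shortest D α ≤ M)
      rw [Finset.card_range] at this
      exact_mod_cast this
    have h2 : (D : ℝ) ≤ M := by exact_mod_cast hMD
    have h3 : (1 : ℝ) ≤ M := by exact_mod_cast hM
    nlinarith

/-! ### A valid pair from the shortest vector -/

/-- A shift making `g₂ + x g₁` coprime to `N`. -/
lemma exists_shift_coprime (N : ℕ) (hN : 1 ≤ N) (g₁ g₂ : ℤ) (h : IsCoprime g₁ g₂) :
    ∃ x : ℤ, Int.gcd (g₂ + x * g₁) N = 1 := by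
  classical
  -- `x` is the product of the primes dividing `N` but not `g₂`
  set x : ℕ := ∏ p ∈ N.primeFactors.filter (fun p : ℕ => ¬ (p : ℤ) ∣ g₂), p with hx
  refine ⟨x, ?_⟩
  rw [← Int.isCoprime_iff_gcd_eq_one]
  by_contra hcon
  rw [Int.isCoprime_iff_gcd_eq_one] at hcon
  obtain ⟨p, hp, hpd⟩ := Nat.exists_prime_and_dvd hcon
  have h1 : (p : ℤ) ∣ g₂ + x * g₁ := (Int.natCast_dvd_natCast.mpr hpd).trans (Int.gcd_dvd_left ..)
  have h2 : (p : ℤ) ∣ (N : ℤ) := (Int.natCast_dvd_natCast.mpr hpd).trans (Int.gcd_dvd_right ..)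
  have h2' : p ∣ N := by exact_mod_cast h2
  have hpi : Prime (p : ℤ) := Nat.prime_iff_prime_int.mp hp
  have hpf : p ∈ N.primeFactors := by
    rw [Nat.mem_primeFactors]; exact ⟨hp, h2', by omega⟩
  by_cases hg2 : (p : ℤ) ∣ g₂
  · have h3 : (p : ℤ) ∣ x * g₁ := by
      have := dvd_sub h1 hg2
      simpa using this
    rcases hpi.dvd_or_dvd h3 with h4 | h4
    · have h5 : p ∣ x := by exact_mod_cast h4
      rw [hx, Prime.dvd_finsetProd_iff hp.prime] at h5
      obtain ⟨q, hq, hpq⟩ := h5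
      rw [Finset.mem_filter, Nat.mem_primeFactors] at hq
      have : p = q := (Nat.prime_dvd_prime_iff_eq hp hq.1.1).mp hpq
      exact hq.2 (this ▸ hg2)
    · have := h.isUnit_of_dvd' h4 hg2
      exact hpi.not_isUnit this
  · have h3 : p ∣ x := by
      rw [hx]
      apply Finset.dvd_prod_of_mem (fun p => p)
      rw [Finset.mem_filter]
      exact ⟨hpf, hg2⟩
    have h4 : (p : ℤ) ∣ x * g₁ := (Int.natCast_dvd_natCast.mpr h3).mul_right g₁
    have := dvd_sub h1 h4
    simp at this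
    exact hg2 this

/-- balanced remainder -/
lemma exists_balanced (y c : ℤ) (hc : c ≠ 0) : ∃ t : ℤ, 2 * |y + t * c| ≤ |c| := by
  refine ⟨-round ((y : ℝ) / c), ?_⟩
  have hc' : (c : ℝ) ≠ 0 := by exact_mod_cast hc
  have h := abs_sub_round ((y : ℝ) / c)
  have hcpos : 0 < |(c : ℝ)| := abs_pos.mpr hc'
  have h2 : |(y : ℝ) + (-round ((y : ℝ) / c) : ℤ) * c| = |(c : ℝ)| * |(y : ℝ) / c - round ((y : ℝ) / c)| := by
    rw [← abs_mul]
    congr 1
    push_cast
    field_simp
    ring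
  have h3 : (2 : ℝ) * |(y : ℝ) + (-round ((y : ℝ) / c) : ℤ) * c| ≤ |(c : ℝ)| := by
    rw [h2]
    nlinarith
  exact_mod_cast h3

/-- Normalise a vector whose second coordinate is coprime to `N` to a valid pair. -/
lemma valid_of_vector {N n : ℕ} (hN : 2 ≤ N) {α f g : ℤ} (hd : (N : ℤ) ^ n ∣ g * α - f)
    (hg : Int.gcd g N = 1) :
    ∃ f' g' : ℤ, Valid N n α f' g' ∧ |f'| ≤ |f| ∧ |g'| ≤ |g| := by
  have hg0 : g ≠ 0 := by
    rintro rfl
    simp at hg
    omega
  -- first divide by the gcd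
  set d : ℕ := Int.gcd f g with hdd
  have hd0 : d ≠ 0 := by
    rw [hdd, Ne, Int.gcd_eq_zero_iff]; tauto
  have hdz : (d : ℤ) ≠ 0 := by exact_mod_cast hd0
  obtain ⟨f₁, hf₁⟩ : (d : ℤ) ∣ f := Int.gcd_dvd_left ..
  obtain ⟨g₁, hg₁⟩ : (d : ℤ) ∣ g := Int.gcd_dvd_right ..
  have hgcd : Int.gcd f₁ g₁ = 1 := by
    have h1 : Int.gcd (d * f₁) (d * g₁) = d * Int.gcd f₁ g₁ := by
      rw [Int.gcd_mul_left]; simp
    rw [← hf₁, ← hg₁, ← hdd] at h1
    have : d * 1 = d * Int.gcd f₁ g₁ := by rw [mul_one]; exact h1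
    exact (Nat.eq_of_mul_eq_mul_left (Nat.pos_of_ne_zero hd0) this).symm
  have hcopg : IsCoprime g (N : ℤ) := Int.isCoprime_iff_gcd_eq_one.mpr hg
  have hcopd : IsCoprime (d : ℤ) (N : ℤ) := by
    rw [hg₁] at hcopg; exact hcopg.of_mul_left_left
  have hcopg1 : IsCoprime g₁ (N : ℤ) := by
    rw [hg₁] at hcopg; exact hcopg.of_mul_left_right
  have hdvd1 : (N : ℤ) ^ n ∣ g₁ * α - f₁ := by
    have h1 : (N : ℤ) ^ n ∣ d * (g₁ * α - f₁) := by
      refine hd.trans (dvd_of_eq ?_)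
      rw [hf₁, hg₁]; ring
    exact (hcopd.symm.pow_left).dvd_of_dvd_mul_left h1
  have hd1 : (1 : ℤ) ≤ |(d : ℤ)| := Int.one_le_abs hdz
  have hfle : |f₁| ≤ |f| := by
    rw [hf₁, abs_mul]; nlinarith [abs_nonneg f₁]
  have hgle : |g₁| ≤ |g| := by
    rw [hg₁, abs_mul]; nlinarith [abs_nonneg g₁]
  have hg10 : g₁ ≠ 0 := by
    rintro rfl; apply hg0; rw [hg₁]; simp
  rcases lt_or_gt_of_ne hg10 with hneg | hpos
  · refine ⟨-f₁, -g₁, ⟨by omega, by simpa using hgcd, ?_, ?_⟩, by simpa using hfle, by simpa using hgle⟩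
    · have := Int.isCoprime_iff_gcd_eq_one.mp hcopg1
      simpa using this
    · refine (dvd_neg.mpr hdvd1).trans (dvd_of_eq ?_)
      ring
  · exact ⟨f₁, g₁, ⟨hpos, hgcd, Int.isCoprime_iff_gcd_eq_one.mp hcopg1, hdvd1⟩, hfle, hgle⟩

/-- The second vector: a valid pair of size at most `N·D / shortest`. -/
lemma exists_valid_mul_le {N n : ℕ} (hN : 2 ≤ N) (α : ℤ) :
    ∃ f g : ℤ, Valid N n α f g ∧ max |f| |g| * (shortest (N ^ n) α : ℤ) ≤ (N : ℤ) * (N : ℤ) ^ n := by
  set D : ℕ := N ^ n with hDdef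
  have hD : 1 ≤ D := Nat.one_le_pow _ _ (by omega)
  have hDz : (D : ℤ) = (N : ℤ) ^ n := by rw [hDdef]; push_cast; rfl
  obtain ⟨⟨f₁, g₁, hne, hdvd, hmax⟩, hmin, hm1⟩ := shortest_spec D hD α
  have hsq := shortest_sq_le D hD α
  set m : ℕ := shortest D α with hm
  have hsq' : (m : ℤ) * m ≤ D := by
    have : (m : ℤ) ^ 2 ≤ D := by exact_mod_cast hsq
    nlinarith
  obtain ⟨k', hk'⟩ := hdvd
  -- f₁ = g₁ α + k D
  set k₁ : ℤ := -k' with hk₁
  have hf₁ : f₁ = g₁ * α + k₁ * D := by rw [hk₁]; linarith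
  have hcop : IsCoprime k₁ g₁ := by
    rw [Int.isCoprime_iff_gcd_eq_one]
    by_contra hcon
    set d : ℕ := Int.gcd k₁ g₁ with hd
    have hd0 : d ≠ 0 := by
      intro h0
      rw [hd, Int.gcd_eq_zero_iff] at h0
      rw [h0.1, h0.2] at hf₁
      rcases hne with h | h
      · exact h (by simpa using hf₁)
      · exact h h0.2
    have hd2 : (2 : ℤ) ≤ d := by
      have : 2 ≤ d := by omega
      exact_mod_cast this
    obtain ⟨kk, hkk⟩ : (d : ℤ) ∣ k₁ := Int.gcd_dvd_left ..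
    obtain ⟨gg, hgg⟩ : (d : ℤ) ∣ g₁ := Int.gcd_dvd_right ..
    have hff : f₁ = d * (gg * α + kk * D) := by rw [hf₁, hkk, hgg]; ring
    have hne' : (gg * α + kk * D) ≠ 0 ∨ gg ≠ 0 := by
      rcases hne with h | h
      · left; intro h0; apply h; rw [hff, h0]; ring
      · right; intro h0; apply h; rw [hgg, h0]; ring
    have h1 := hmin (gg * α + kk * D) gg hne' ⟨-kk, by ring⟩
    have h2 : (d : ℤ) * max |gg * α + kk * D| |gg| = m := by
      rw [← hmax, hff, hgg, abs_mul, abs_mul, abs_of_nonneg (by omega : (0:ℤ) ≤ d)]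
      rw [mul_max_of_nonneg _ _ (by omega)]
    have h3 : (1 : ℤ) ≤ m := by exact_mod_cast hm1
    nlinarith
  -- Bezout
  obtain ⟨u, v, huv⟩ := hcop
  -- u * k₁ + v * g₁ = 1; take g₂ = u, k₂ = -v
  have hcop12 : IsCoprime g₁ u := ⟨v, k₁, by linarith⟩
  obtain ⟨x₀, hx₀⟩ := exists_shift_coprime N (by omega) g₁ u hcop12
  set f₂ : ℤ := u * α - v * D with hf₂
  have hdet : f₁ * u - f₂ * g₁ = D := by
    rw [hf₁, hf₂]
    have : (g₁ * α + k₁ * D) * u - (u * α - v * D) * g₁ = D * (u * k₁ + v * g₁) := by ring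
    rw [this, huv, mul_one]
  -- general vector
  have hgen : ∀ t : ℤ, ∃ f g : ℤ, Valid N n α f g ∧
      |f| ≤ |f₂ + (x₀ + t * N) * f₁| ∧ |g| ≤ |u + (x₀ + t * N) * g₁| := by
    intro t
    apply valid_of_vector hN
    · rw [← hDz]
      refine ⟨v - (x₀ + t * N) * k₁, ?_⟩
      rw [hf₂, hf₁]; ring
    · rw [← Int.isCoprime_iff_gcd_eq_one] at hx₀ ⊢
      have : u + (x₀ + t * N) * g₁ = (u + x₀ * g₁) + (N : ℤ) * (t * g₁) := by ring
      rw [this]
      exact IsCoprime.add_mul_left_left hx₀ _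
  have hdett : ∀ t : ℤ, f₁ * (u + (x₀ + t * N) * g₁) - (f₂ + (x₀ + t * N) * f₁) * g₁ = D := by
    intro t; rw [← hdet]; ring
  have hNz : (2 : ℤ) ≤ N := by exact_mod_cast hN
  have hN0 : (N : ℤ) ≠ 0 := by omega
  have hm0 : (0 : ℤ) < m := by exact_mod_cast hm1
  rcases le_total |g₁| |f₁| with hcase | hcase
  · have hf1m : |f₁| = m := by rw [← hmax, max_eq_left hcase]
    have hf10 : f₁ ≠ 0 := by
      intro h; rw [h] at hf1m; simp at hf1m; omega
    obtain ⟨t, ht⟩ := exists_balanced (f₂ + x₀ * f₁) ((N : ℤ) * f₁) (mul_ne_zero hN0 hf10)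
    obtain ⟨f, g, hv, hf, hg⟩ := hgen t
    refine ⟨f, g, hv, ?_⟩
    have e1 : f₂ + x₀ * f₁ + t * ((N : ℤ) * f₁) = f₂ + (x₀ + t * N) * f₁ := by ring
    rw [e1, abs_mul, hf1m, abs_of_nonneg (by omega : (0:ℤ) ≤ N)] at ht
    set F := f₂ + (x₀ + t * N) * f₁ with hF
    set G := u + (x₀ + t * N) * g₁ with hG
    have hD1 := hdett t
    rw [← hG] at hD1
    have hGm : |G| * m ≤ D + |F| * m := by
      have e2 : f₁ * G = D + F * g₁ := by rw [hF]; linarith
      calc |G| * m = |f₁ * G| := by rw [abs_mul, hf1m]; ring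
        _ = |(D : ℤ) + F * g₁| := by rw [e2]
        _ ≤ |(D : ℤ)| + |F * g₁| := abs_add_le _ _
        _ = D + |F| * |g₁| := by rw [abs_mul, abs_of_nonneg (by omega : (0:ℤ) ≤ D)]
        _ ≤ D + |F| * m := by
          have : |g₁| ≤ m := by rw [← hf1m]; exact hcase
          nlinarith [abs_nonneg F]
    have hFm : 2 * (|F| * m) ≤ N * D := by nlinarith
    have hND : 2 * (D : ℤ) ≤ N * D := by nlinarith
    have hb1 : |f| * m ≤ N * D := by nlinarith [abs_nonneg F]
    have hb2 : |g| * m ≤ N * D := by nlinarith [abs_nonneg G]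
    rw [hDz] at hb1 hb2
    rcases le_total |f| |g| with h | h
    · rw [max_eq_right h]; exact hb2
    · rw [max_eq_left h]; exact hb1
  · have hg1m : |g₁| = m := by rw [← hmax, max_eq_right hcase]
    have hg10 : g₁ ≠ 0 := by
      intro h; rw [h] at hg1m; simp at hg1m; omega
    obtain ⟨t, ht⟩ := exists_balanced (u + x₀ * g₁) ((N : ℤ) * g₁) (mul_ne_zero hN0 hg10)
    obtain ⟨f, g, hv, hf, hg⟩ := hgen t
    refine ⟨f, g, hv, ?_⟩
    have e1 : u + x₀ * g₁ + t * ((N : ℤ) * g₁) = u + (x₀ + t * N) * g₁ := by ring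
    rw [e1, abs_mul, hg1m, abs_of_nonneg (by omega : (0:ℤ) ≤ N)] at ht
    set F := f₂ + (x₀ + t * N) * f₁ with hF
    set G := u + (x₀ + t * N) * g₁ with hG
    have hD1 := hdett t
    rw [← hF, ← hG] at hD1
    have hFm : |F| * m ≤ D + |G| * m := by
      have e2 : F * g₁ = f₁ * G - D := by linarith
      calc |F| * m = |F * g₁| := by rw [abs_mul, hg1m]
        _ = |f₁ * G - D| := by rw [e2]
        _ ≤ |f₁ * G| + |(D : ℤ)| := abs_sub _ _
        _ = D + |G| * |f₁| := by rw [abs_mul, abs_of_nonneg (by omega : (0:ℤ) ≤ D)]; ring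
        _ ≤ D + |G| * m := by
          have : |f₁| ≤ m := by rw [← hg1m]; exact hcase
          nlinarith [abs_nonneg G]
    have hGm : 2 * (|G| * m) ≤ N * D := by nlinarith
    have hND : 2 * (D : ℤ) ≤ N * D := by nlinarith
    have hb1 : |f| * m ≤ N * D := by nlinarith [abs_nonneg F]
    have hb2 : |g| * m ≤ N * D := by nlinarith [abs_nonneg G]
    rw [hDz] at hb1 hb2
    rcases le_total |f| |g| with h | h
    · rw [max_eq_right h]; exact hb2
    · rw [max_eq_left h]; exact hb1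

/-! ### The two bounds -/

/-- `log x ≤ log T - 1 + x / T`. -/
lemma log_le_tangent {x T : ℝ} (hx : 0 < x) (hT : 0 < T) : Real.log x ≤ Real.log T - 1 + x / T := by
  have h := Real.log_le_sub_one_of_pos (div_pos hx hT)
  rw [Real.log_div hx.ne' hT.ne'] at h
  linarith

/-- For each residue the complexity number. -/
lemma sum_log_lower {ι : Type*} (s : Finset ι) (X : ι → ℕ) (hX : ∀ i ∈ s, 1 ≤ X i) (D : ℝ)
    (hD1 : 1 ≤ D) (hD : (s.card : ℝ) = D)
    (hcount : ∀ M : ℕ, 1 ≤ M → ((s.filter (fun i => X i ≤ M)).card : ℝ) ≤ 3 * (M : ℝ) ^ 2) :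
    D * (Real.log D / 2 - Real.log 4) ≤ ∑ i ∈ s, Real.log (X i) := by
  have h1 := sum_inv_le s X hX D hD.le hcount
  have hsq : 0 < Real.sqrt D := Real.sqrt_pos.mpr (by linarith)
  set T : ℝ := Real.sqrt D / 4 with hT
  have hT0 : 0 < T := by positivity
  have h2 : ∀ i ∈ s, Real.log T + 1 - T * (1 / (X i : ℝ)) ≤ Real.log (X i) := by
    intro i hi
    have hXi : (0 : ℝ) < X i := by exact_mod_cast hX i hi
    have := log_le_tangent hT0 hXi
    have e : T / (X i : ℝ) = T * (1 / (X i : ℝ)) := by ring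
    linarith
  have h3 := Finset.sum_le_sum h2
  rw [Finset.sum_sub_distrib, Finset.sum_const, nsmul_eq_mul, ← Finset.mul_sum, hD] at h3
  have h4 : T * ∑ i ∈ s, (1 : ℝ) / X i ≤ D := by
    calc T * ∑ i ∈ s, (1 : ℝ) / X i ≤ T * (4 * Real.sqrt D) := mul_le_mul_of_nonneg_left h1 hT0.le
      _ = Real.sqrt D * Real.sqrt D := by rw [hT]; ring
      _ = D := Real.mul_self_sqrt (by linarith)
  have h5 : Real.log T = Real.log D / 2 - Real.log 4 := by
    rw [hT, Real.log_div hsq.ne' (by norm_num), Real.log_sqrt (by linarith)]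
  rw [← h5]
  nlinarith

lemma sum_log_upper {ι : Type*} (s : Finset ι) (X m : ι → ℕ) (hX : ∀ i ∈ s, 1 ≤ X i)
    (hm : ∀ i ∈ s, 1 ≤ m i) (D C : ℝ)
    (hD1 : 1 ≤ D) (hC : 0 < C) (hD : (s.card : ℝ) = D)
    (hXm : ∀ i ∈ s, (X i : ℝ) * m i ≤ C * D)
    (hcount : ∀ M : ℕ, 1 ≤ M → ((s.filter (fun i => m i ≤ M)).card : ℝ) ≤ 3 * (M : ℝ) ^ 2) :
    ∑ i ∈ s, Real.log (X i) ≤ D * (Real.log D / 2 + Real.log (4 * C)) := by
  have h1 := sum_inv_le s m hm D hD.le hcount
  have hsq : 0 < Real.sqrt D := Real.sqrt_pos.mpr (by linarith)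
  set T : ℝ := 4 * C * Real.sqrt D with hT
  have hT0 : 0 < T := by positivity
  have h2 : ∀ i ∈ s, Real.log (X i) ≤ Real.log T - 1 + (X i : ℝ) / T := by
    intro i hi
    have hXi : (0 : ℝ) < X i := by exact_mod_cast hX i hi
    exact log_le_tangent hXi hT0
  have h3 := Finset.sum_le_sum h2
  rw [Finset.sum_add_distrib, Finset.sum_const, nsmul_eq_mul, hD, ← Finset.sum_div] at h3
  have h4 : (∑ i ∈ s, (X i : ℝ)) ≤ D * T := by
    calc (∑ i ∈ s, (X i : ℝ)) ≤ ∑ i ∈ s, (C * D) * (1 / (m i : ℝ)) := by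
          apply Finset.sum_le_sum
          intro i hi
          have hmi : (0 : ℝ) < m i := by exact_mod_cast hm i hi
          rw [mul_one_div, le_div_iff₀ hmi]
          exact hXm i hi
      _ = (C * D) * ∑ i ∈ s, (1 / (m i : ℝ)) := by rw [Finset.mul_sum]
      _ ≤ (C * D) * (4 * Real.sqrt D) := mul_le_mul_of_nonneg_left h1 (by positivity)
      _ = D * T := by rw [hT]; ring
  have h5 : (∑ i ∈ s, (X i : ℝ)) / T ≤ D := by
    rw [div_le_iff₀ hT0]; exact h4
  have h6 : Real.log T = Real.log D / 2 + Real.log (4 * C) := by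
    rw [hT, Real.log_mul (by positivity) hsq.ne', Real.log_sqrt (by linarith)]; ring
  rw [← h6]
  nlinarith

/-- The least size of a valid pair. -/
noncomputable def size (N n : ℕ) (a : Fin n → Fin N) : ℕ :=
  sInf {m : ℕ | ∃ f g : ℤ, Valid N n (val N n a) f g ∧ max |f| |g| = m}

lemma size_spec {N n : ℕ} (hN : 2 ≤ N) (a : Fin n → Fin N) :
    1 ≤ size N n a ∧ finComplexity N n a = Real.logb N (size N n a) ∧
      (∃ f g : ℤ, Valid N n (val N n a) f g ∧ max |f| |g| = size N n a) ∧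
      (∀ f g : ℤ, Valid N n (val N n a) f g → (size N n a : ℤ) ≤ max |f| |g|) := by
  obtain ⟨m, h1, h2, h3, h4⟩ := finComplexity_spec hN a
  have : size N n a = m := by
    apply IsLeast.csInf_eq
    refine ⟨h3, ?_⟩
    rintro k ⟨f, g, hv, hk⟩
    have := h4 f g hv
    omega
  rw [this]
  exact ⟨h1, h2, h3, h4⟩

lemma card_size_le {N n : ℕ} (hN : 2 ≤ N) (M : ℕ) (hM : 1 ≤ M) :
    (((Finset.univ : Finset (Fin n → Fin N)).filter (fun a => size N n a ≤ M)).card : ℝ)
      ≤ 3 * (M : ℝ) ^ 2 := by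
  classical
  -- inject into pairs
  choose! F G hv hmax using fun a : Fin n → Fin N => (size_spec hN a).2.2.1
  have hcard : ((Finset.univ : Finset (Fin n → Fin N)).filter (fun a => size N n a ≤ M)).card
      ≤ ((Finset.Icc (-(M : ℤ)) M) ×ˢ (Finset.Icc (1 : ℤ) M)).card := by
    apply Finset.card_le_card_of_injOn (fun a => (F a, G a))
    · intro a ha
      rw [Finset.coe_filter] at ha
      have ha' : size N n a ≤ M := ha.2
      have h1 : max |F a| |G a| ≤ M := by rw [hmax a]; exact_mod_cast ha'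
      have h2 : |F a| ≤ M := (le_max_left _ _).trans h1
      have h3 : |G a| ≤ M := (le_max_right _ _).trans h1
      have h4 : 0 < G a := (hv a).1
      rw [abs_le] at h2 h3
      simp only [Finset.coe_product, Set.mem_prod, Finset.coe_Icc, Set.mem_Icc]
      exact ⟨h2, by omega, h3.2⟩
    · intro a _ b _ hab
      simp only [Prod.mk.injEq] at hab
      obtain ⟨hF, hG⟩ := hab
      have h1 := (hv a).2.2.2
      have h2 := (hv b).2.2.2
      rw [← hF, ← hG] at h2
      have h3 : (N : ℤ) ^ n ∣ G a * ((val N n a : ℤ) - (val N n b : ℤ)) := by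
        refine (dvd_sub h1 h2).trans (dvd_of_eq ?_)
        ring
      have hcop : IsCoprime ((N : ℤ) ^ n) (G a) :=
        (Int.isCoprime_iff_gcd_eq_one.mpr (hv a).2.2.1).symm.pow_left
      have h4 := hcop.dvd_of_dvd_mul_left h3
      have hlt1 := val_lt N n a
      have hlt2 := val_lt N n b
      have h5 : (val N n a : ℤ) - (val N n b : ℤ) = 0 := by
        apply Int.eq_zero_of_abs_lt_dvd h4
        rw [abs_lt]
        have e1 : (val N n a : ℤ) < (N : ℤ) ^ n := by exact_mod_cast hlt1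
        have e2 : (val N n b : ℤ) < (N : ℤ) ^ n := by exact_mod_cast hlt2
        have e3 : (0 : ℤ) ≤ (val N n a : ℤ) := by positivity
        have e4 : (0 : ℤ) ≤ (val N n b : ℤ) := by positivity
        constructor <;> linarith
      exact val_inj N n (by omega)
  have h1 : ((Finset.Icc (-(M : ℤ)) M) ×ˢ (Finset.Icc (1 : ℤ) M)).card = (2 * M + 1) * M := by
    rw [Finset.card_product, Int.card_Icc, Int.card_Icc]
    congr 1
    · omega
    · omega
  rw [h1] at hcard
  have h2 : (((Finset.univ : Finset (Fin n → Fin N)).filter (fun a => size N n a ≤ M)).card : ℝ)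
      ≤ (2 * M + 1) * M := by exact_mod_cast hcard
  have hM' : (1 : ℝ) ≤ M := by exact_mod_cast hM
  nlinarith

lemma card_shortest_val_le {N n : ℕ} (hN : 2 ≤ N) (M : ℕ) (hM : 1 ≤ M) :
    (((Finset.univ : Finset (Fin n → Fin N)).filter
      (fun a => shortest (N ^ n) (val N n a) ≤ M)).card : ℝ) ≤ 3 * (M : ℝ) ^ 2 := by
  classical
  have h := card_shortest_le (N ^ n) (Nat.one_le_pow _ _ (by omega)) M hM
  refine le_trans ?_ h
  have : ((Finset.univ : Finset (Fin n → Fin N)).filter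
      (fun a => shortest (N ^ n) (val N n a) ≤ M)).card ≤
      ((range (N ^ n)).filter (fun α : ℕ => shortest (N ^ n) α ≤ M)).card := by
    apply Finset.card_le_card_of_injOn (fun a => val N n a)
    · intro a ha
      rw [Finset.coe_filter] at ha
      rw [Finset.coe_filter]
      exact ⟨Finset.mem_range.mpr (val_lt N n a), ha.2⟩
    · intro a _ b _ hab
      exact val_inj N n hab
  exact_mod_cast this

/-- **Average N-adic complexity of finite sequences.** For every `N ≥ 2` and every `n`,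
`n/2 - log_N 4 ≤ E_n^fin ≤ n/2 + 1 + log_N 4`; so `E_n^fin = n/2 + O(1)`. -/
theorem result (N n : ℕ) (hN : 2 ≤ N) :
    (n : ℝ) / 2 - Real.logb N 4 ≤ avgFin N n ∧
      avgFin N n ≤ (n : ℝ) / 2 + 1 + Real.logb N 4 := by
  have hN1 : (1 : ℝ) < N := by exact_mod_cast (by omega : 1 < N)
  have hlogN : 0 < Real.log N := Real.log_pos hN1
  set D : ℝ := (N : ℝ) ^ n with hD
  have hD1 : 1 ≤ D := one_le_pow₀ hN1.le
  have hD0 : 0 < D := by linarith
  have hcard : (((Finset.univ : Finset (Fin n → Fin N))).card : ℝ) = D := by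
    rw [Finset.card_univ, Fintype.card_fun, Fintype.card_fin, Fintype.card_fin]
    push_cast
    rfl
  have hlogD : Real.log D = n * Real.log N := by rw [hD, Real.log_pow]
  have hlow := sum_log_lower (Finset.univ : Finset (Fin n → Fin N)) (fun a => size N n a)
    (fun a _ => (size_spec hN a).1) D hD1 hcard (fun M hM => card_size_le hN M hM)
  have hup := sum_log_upper (Finset.univ : Finset (Fin n → Fin N)) (fun a => size N n a)
    (fun a => shortest (N ^ n) (val N n a))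
    (fun a _ => (size_spec hN a).1)
    (fun a _ => (shortest_spec (N ^ n) (Nat.one_le_pow _ _ (by omega)) _).2.2) D N hD1 (by linarith) hcard
    (by
      intro a _
      obtain ⟨f, g, hv, hle⟩ := exists_valid_mul_le (n := n) hN (val N n a)
      have h1 := (size_spec hN a).2.2.2 f g hv
      have h2 : (size N n a : ℤ) * (shortest (N ^ n) (val N n a) : ℤ) ≤ (N : ℤ) * (N : ℤ) ^ n := by
        refine le_trans ?_ hle
        exact mul_le_mul_of_nonneg_right h1 (by positivity)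
      have h3 : (((size N n a : ℤ) * (shortest (N ^ n) (val N n a) : ℤ) : ℤ) : ℝ) ≤
        (((N : ℤ) * (N : ℤ) ^ n : ℤ) : ℝ) := by exact_mod_cast h2
      push_cast at h3
      exact h3)
    (fun M hM => card_shortest_val_le hN M hM)
  have hsum : avgFin N n = (∑ a : Fin n → Fin N, Real.log (size N n a)) / (Real.log N * D) := by
    unfold avgFin
    rw [Finset.sum_congr rfl (fun a _ => (size_spec hN a).2.1)]
    simp only [Real.logb]
    rw [← Finset.sum_div, div_div]
  have hLD : 0 < Real.log N * D := by positivity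
  constructor
  · rw [hsum, le_div_iff₀ hLD]
    refine le_trans (le_of_eq ?_) hlow
    rw [hlogD, Real.logb]
    field_simp
  · rw [hsum, div_le_iff₀ hLD]
    refine le_trans hup (le_of_eq ?_)
    rw [hlogD, Real.logb, Real.log_mul (by norm_num) (by linarith)]
    field_simp
    ring

end Pool.Agent.Results.MP_68df70_lc.AverageComplexity
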